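import Mathlib
import Pool.Agent.Helper436.AD.StmtU
import Pool.Agent.Helper436.AD.FinU

set_option autoImplicit false

namespace Pool.Agent.Results.MP_ad85d3_an.AmpSwap

open Pool.Agent.Helper436.AD.TU

universe w

/-- There are separable II₁ factors `N₁, N₂, M₁, M₂` with `N₁^U ⊗ N₂^U ≅ M₁^U ⊗ M₂^U` for every
nonprincipal ultrafilter `U` on `ℕ`, such that neither (`N₁ ≡ M₁` and `N₂ ≡ M₂`) nor (`N₁ ≡ M₂` and
`N₂ ≡ M₁`). -/
theorem result :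
    ∃ N₁ N₂ M₁ M₂ : SepFactor,
      (∀ U : Ultrafilter ℕ, (∀ n, {n} ∉ U) → TensorIso U N₁ N₂ M₁ M₂) ∧
        ¬ (Equivalent.{w} N₁ M₁ ∧ Equivalent.{w} N₂ M₂) ∧
          ¬ (Equivalent.{w} N₁ M₂ ∧ Equivalent.{w} N₂ M₁) :=
  final

end Pool.Agent.Results.MP_ad85d3_an.AmpSwap
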